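import Pool.Agent.H180.GK.Stm

/-!
# Project GK: compact spaces with a point separating family are hereditarily weakly
sigma-metacompact
-/

set_option autoImplicit false

open Set Topology Cardinal Pool.Agent.Helper535

namespace Pool.Agent.Q90.GK

open Pool.Agent.H180.GK

universe u v w

/-- finitely many lists -/
theorem finite_lists {α β : Type*} (R : α → β → Prop) (P : α → Prop) (k : List β)
    (hk : ∀ d ∈ k, {c | R c d ∧ P c}.Finite) :
    {a : List α | List.Forall₂ R a k ∧ ∀ c ∈ a, P c}.Finite := by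
  induction k with
  | nil =>
    refine (Set.finite_singleton []).subset ?_
    rintro a ⟨ha, -⟩
    cases ha
    rfl
  | cons d k ih =>
    have h1 := hk d (by simp)
    have h2 := ih fun d' hd' => hk d' (by simp [hd'])
    refine (h1.image2 List.cons h2).subset ?_
    rintro a ⟨ha, hP⟩
    cases ha with
    | cons hcd hak =>
      rename_i c a'
      exact ⟨c, ⟨hcd, hP c (by simp)⟩, a', ⟨hak, fun x hx => hP x (by simp [hx])⟩, rfl⟩

section

variable {X : Type u} [TopologicalSpace X] {E : Type v} [TopologicalSpace E] {T : Type u}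
  (h : T → C(X, ℝ)) (e : T → E) (b : Set (Set E))

/-- the sets of the network -/
def net (ν : Finset b × List (T × ℚ) × ℚ) : Set X :=
  {y | (∀ m ∈ ν.1, ∀ t, e t ∈ m.1 → (ν.2.2 : ℝ) < |h t y| → t ∈ ν.2.1.map Prod.fst) ∧
    ∀ c ∈ ν.2.1, |h c.1 y - c.2| < ν.2.2}

/-- the open expansions -/
def op (ν : Finset b × List (T × ℚ) × ℚ) : Set X :=
  {y | ∀ c ∈ ν.2.1, (ν.2.2 : ℝ) < |h c.1 y| ∧ |h c.1 y - c.2| < ν.2.2}

omit [TopologicalSpace E] in
theorem isOpen_op (ν : Finset b × List (T × ℚ) × ℚ) : IsOpen (op h b ν) := by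
  have : op h b ν = ⋂ c ∈ {c | c ∈ ν.2.1},
      {y | (ν.2.2 : ℝ) < |h c.1 y| ∧ |h c.1 y - c.2| < ν.2.2} := by
    ext y
    simp [op]
  rw [this]
  refine (List.finite_toSet ν.2.1).isOpen_biInter fun c _ => ?_
  exact (isOpen_lt continuous_const (h c.1).continuous.abs).inter
    (isOpen_lt ((h c.1).continuous.sub continuous_const).abs continuous_const)

/-- the network -/
theorem exists_net [CompactSpace X] [T2Space X] (H : EFam h e)
    (hsep : ∀ x y, (∀ s, h s x = h s y) → x = y) (hb : TopologicalSpace.IsTopologicalBasis b)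
    (x : X) (W : Set X) (hW : IsOpen W) (hx : x ∈ W) :
    ∃ ν : Finset b × List (T × ℚ) × ℚ, 0 < ν.2.2 ∧ x ∈ net h e b ν ∧ x ∈ op h b ν ∧
      net h e b ν ⊆ W := by
  classical
  rcases isEmpty_or_nonempty T with hT | hT
  · refine ⟨(∅, [], 1), one_pos, ⟨by simp, by simp⟩, by simp [op], ?_⟩
    intro y _
    rw [hsep y x fun s => (hT.false s).elim]
    exact hx
  -- a finite set of functions
  have h1 : ∀ y ∈ Wᶜ, ∃ t, h t y ≠ h t x := by
    intro y hy
    by_contra hcon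
    push Not at hcon
    exact hy (hsep y x hcon ▸ hx)
  choose! t ht using h1
  have h2 : ∀ y ∈ Wᶜ, {z | |h (t y) y - h (t y) x| / 2 < |h (t y) z - h (t y) x|} ∈ 𝓝 y := by
    intro y hy
    have h3 : 0 < |h (t y) y - h (t y) x| := abs_pos.2 (sub_ne_zero.2 (ht y hy))
    refine IsOpen.mem_nhds (isOpen_lt continuous_const
      ((h (t y)).continuous.sub continuous_const).abs) ?_
    show |h (t y) y - h (t y) x| / 2 < |h (t y) y - h (t y) x|
    linarith
  obtain ⟨F, hFW, hF⟩ := hW.isClosed_compl.isCompact.elim_nhds_subcover _ h2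
  -- the level
  have h4 : ∀ᶠ r in 𝓝[>] (0 : ℝ), ∀ y ∈ F, 2 * r < |h (t y) y - h (t y) x| / 2 := by
    refine (Filter.eventually_all_finset F).2 fun y hy => ?_
    have h3 : 0 < |h (t y) y - h (t y) x| := abs_pos.2 (sub_ne_zero.2 (ht y (hFW y hy)))
    have h5 : Filter.Tendsto (fun r : ℝ => 2 * r) (𝓝[>] 0) (𝓝 0) := by
      have : Filter.Tendsto (fun r : ℝ => 2 * r) (𝓝 0) (𝓝 (2 * 0)) :=
        (continuous_const.mul continuous_id).tendsto _
      rw [mul_zero] at this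
      exact this.mono_left nhdsWithin_le_nhds
    exact h5.eventually_lt_const (by linarith)
  obtain ⟨r, hr, hr0⟩ := (h4.and self_mem_nhdsWithin).exists
  obtain ⟨η, hη0, hηr⟩ := exists_rat_btwn (show (0 : ℝ) < r from hr0)
  have hη : (0 : ℚ) < η := by exact_mod_cast hη0
  -- the basic sets
  have h6 : ∀ s : T, ∃ m : b, e s ∈ m.1 ∧ {s' | e s' ∈ m.1 ∧ (η : ℝ) ≤ |h s' x|}.Finite := by
    intro s
    obtain ⟨O, hO, hf⟩ := H.fin x (e s) η hη0
    obtain ⟨m, hm, hsm, hmO⟩ := hb.mem_nhds_iff.1 hO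
    exact ⟨⟨m, hm⟩, hsm, hf.subset fun s' hs' => ⟨hmO hs'.1, hs'.2⟩⟩
  choose m hm hmf using h6
  let N : Finset b := F.image fun y => m (t y)
  have hPfin : {s | ∃ m ∈ N, e s ∈ m.1 ∧ (η : ℝ) < |h s x|}.Finite := by
    refine (Set.Finite.biUnion F.finite_toSet fun y _ => hmf (t y)).subset ?_
    rintro s ⟨m', hm', hs, hsη⟩
    obtain ⟨y, hy, rfl⟩ := Finset.mem_image.1 hm'
    exact mem_iUnion₂.2 ⟨y, hy, hs, hsη.le⟩
  have h7 : ∀ s : T, ∃ c : ℚ, |h s x - c| < η := by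
    intro s
    obtain ⟨c, hc1, hc2⟩ := exists_rat_btwn (show h s x - η < h s x by linarith)
    refine ⟨c, ?_⟩
    rw [abs_lt]
    constructor <;> linarith
  choose c hc using h7
  let a : List (T × ℚ) := hPfin.toFinset.toList.map fun s => (s, c s)
  have ha : ∀ p : T × ℚ, p ∈ a ↔ (∃ m ∈ N, e p.1 ∈ m.1 ∧ (η : ℝ) < |h p.1 x|) ∧ p.2 = c p.1 := by
    intro p
    simp only [a, List.mem_map, Finset.mem_toList, Set.Finite.mem_toFinset, mem_ofPred_eq]
    constructor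
    · rintro ⟨s, hs, rfl⟩
      exact ⟨hs, rfl⟩
    · rintro ⟨hs, h8⟩
      exact ⟨p.1, hs, by rw [← h8]⟩
  have ha' : ∀ s : T, s ∈ a.map Prod.fst ↔ ∃ m ∈ N, e s ∈ m.1 ∧ (η : ℝ) < |h s x| := by
    intro s
    rw [List.mem_map]
    constructor
    · rintro ⟨p, hp, rfl⟩
      exact ((ha p).1 hp).1
    · intro hs
      exact ⟨(s, c s), (ha _).2 ⟨hs, rfl⟩, rfl⟩
  refine ⟨(N, a, η), hη, ⟨?_, ?_⟩, ?_, ?_⟩
  · intro m' hm' s hs hsη
    exact (ha' s).2 ⟨m', hm', hs, hsη⟩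
  · intro p hp
    obtain ⟨-, h8⟩ := (ha p).1 hp
    rw [h8]
    exact hc p.1
  · intro p hp
    obtain ⟨⟨_, _, _, h9⟩, h8⟩ := (ha p).1 hp
    refine ⟨h9, ?_⟩
    rw [h8]
    exact hc p.1
  · rintro y ⟨hy1, hy2⟩
    by_contra hyW
    obtain ⟨z, hzF, hz⟩ := mem_iUnion₂.1 (hF hyW)
    have h10 : 2 * (η : ℝ) < |h (t z) y - h (t z) x| := by
      have h11 := hr z hzF
      have h12 : |h (t z) z - h (t z) x| / 2 < |h (t z) y - h (t z) x| := hz
      linarith
    by_cases hP : t z ∈ a.map Prod.fst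
    · have h13 : (t z, c (t z)) ∈ a := (ha _).2 ⟨(ha' _).1 hP, rfl⟩
      have h14 : |h (t z) y - c (t z)| < η := hy2 _ h13
      have h15 := hc (t z)
      rw [abs_lt] at h14 h15
      have h16 : |h (t z) y - h (t z) x| < 2 * η := by
        rw [abs_lt]
        constructor <;> linarith [h14.1, h14.2, h15.1, h15.2]
      linarith
    · have hN : m (t z) ∈ N := Finset.mem_image_of_mem _ hzF
      have h17 : |h (t z) x| ≤ η := by
        by_contra hcon
        exact hP ((ha' _).2 ⟨_, hN, hm _, not_le.1 hcon⟩)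
      have h18 : |h (t z) y| ≤ η := by
        by_contra hcon
        exact hP (hy1 _ hN _ (hm _) (not_le.1 hcon))
      have h19 : |h (t z) y - h (t z) x| ≤ |h (t z) y| + |h (t z) x| := abs_sub _ _
      linarith

end

theorem hered : S_Hered.{u, v} := by
  classical
  intro X _ _ _ E _ _ hGS S U hUo hUc
  obtain ⟨T, h, e, H, hsep⟩ := hGS
  obtain ⟨b, hbc, -, hb⟩ := TopologicalSpace.exists_countable_basis E
  have : Countable b := hbc.to_subtype
  have h1 : ∀ s ∈ U, ∃ s' : Set X, IsOpen s' ∧ Subtype.val ⁻¹' s' = s := fun s hs =>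
    isOpen_induced_iff.1 (hUo s hs)
  choose! f hf1 hf2 using h1
  -- good indices
  let good : Set (Finset b × List (T × ℚ) × ℚ) :=
    {ν | 0 < ν.2.2 ∧ ∃ s ∈ U, net h e b ν ⊆ f s}
  have h2 : ∀ ν ∈ good, ∃ s ∈ U, net h e b ν ⊆ f s := fun ν hν => hν.2
  choose! σ hσU hσ using h2
  let G : (Finset b × List (T × ℚ) × ℚ) → Set S := fun ν => Subtype.val ⁻¹' (op h b ν) ∩ σ ν
  refine ⟨G '' good, ?_, ?_, ?_, ?_⟩
  · rintro _ ⟨ν, hν, rfl⟩
    exact ((isOpen_op h b ν).preimage continuous_subtype_val).inter (hUo _ (hσU ν hν))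
  · rw [eq_univ_iff_forall]
    intro x
    have hx : x ∈ ⋃₀ U := by rw [hUc]; exact mem_univ _
    obtain ⟨s, hs, hxs⟩ := hx
    have hxs' : x.1 ∈ f s := by
      have : x ∈ Subtype.val ⁻¹' (f s) := by rw [hf2 s hs]; exact hxs
      exact this
    obtain ⟨ν, hν0, hν1, hν2, hν3⟩ := exists_net h e b H hsep hb x.1 (f s) (hf1 s hs) hxs'
    have hg : ν ∈ good := ⟨hν0, s, hs, hν3⟩
    refine ⟨G ν, ⟨ν, hg, rfl⟩, hν2, ?_⟩
    have h3 : x.1 ∈ f (σ ν) := hσ ν hg hν1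
    rw [← hf2 (σ ν) (hσU ν hg)]
    exact h3
  · rintro _ ⟨ν, hν, rfl⟩
    exact ⟨σ ν, hσU ν hν, inter_subset_right⟩
  · rw [WSPF_iff]
    obtain ⟨θ, hθ⟩ := exists_surjective_nat (Finset b × List (b × ℚ) × ℚ)
    let cls : Finset b × List (b × ℚ) × ℚ → Set (Finset b × List (T × ℚ) × ℚ) := fun q =>
      {ν | ν.1 = q.1 ∧ ν.2.2 = q.2.2 ∧
        List.Forall₂ (fun c d => e c.1 ∈ d.1.1 ∧ c.2 = d.2) ν.2.1 q.2.1}
    refine ⟨fun n => G '' (good ∩ cls (θ n)), fun n => image_mono inter_subset_left, ?_⟩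
    rintro y _ ⟨ν, hν, rfl⟩
    have hη0 : (0 : ℝ) < ν.2.2 := by exact_mod_cast hν.1
    have h6 : ∀ s : T, ∃ m : b, e s ∈ m.1 ∧
        {s' | e s' ∈ m.1 ∧ (ν.2.2 : ℝ) ≤ |h s' y.1|}.Finite := by
      intro s
      obtain ⟨O, hO, hfin⟩ := H.fin y.1 (e s) ν.2.2 hη0
      obtain ⟨m, hm, hsm, hmO⟩ := hb.mem_nhds_iff.1 hO
      exact ⟨⟨m, hm⟩, hsm, hfin.subset fun s' hs' => ⟨hmO hs'.1, hs'.2⟩⟩
    choose m hm hmf using h6
    obtain ⟨n, hn⟩ := hθ (ν.1, ν.2.1.map (fun c => (m c.1, c.2)), ν.2.2)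
    refine ⟨n, ⟨ν, ⟨hν, ?_⟩, rfl⟩, ?_⟩
    · simp only [cls, hn, mem_ofPred_eq]
      refine ⟨trivial, trivial, ?_⟩
      rw [List.forall₂_map_right_iff]
      exact List.forall₂_same.2 fun c _ => ⟨hm c.1, rfl⟩
    · have h7 : {a : List (T × ℚ) | List.Forall₂ (fun c d => e c.1 ∈ d.1.1 ∧ c.2 = d.2) a
          (ν.2.1.map (fun c => (m c.1, c.2))) ∧ ∀ c ∈ a, (ν.2.2 : ℝ) < |h c.1 y.1|}.Finite := by
        refine finite_lists _ _ _ ?_
        intro d hd
        obtain ⟨c, -, rfl⟩ := List.mem_map.1 hd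
        refine ((hmf c.1).image fun s => (s, c.2)).subset ?_
        rintro ⟨s, q⟩ ⟨⟨h8, h9⟩, h10⟩
        refine ⟨s, ⟨h8, h10.le⟩, ?_⟩
        simp only at h9
        rw [h9]
      refine (h7.image fun a => G (ν.1, a, ν.2.2)).subset ?_
      rintro _ ⟨⟨ν', ⟨hν'1, hν'2⟩, rfl⟩, hy⟩
      simp only [cls, hn, mem_ofPred_eq] at hν'2
      obtain ⟨h11, h12, h13⟩ := hν'2
      refine ⟨ν'.2.1, ⟨h13, ?_⟩, ?_⟩
      · intro c hc
        have := (hy.1 c hc).1
        rw [h12] at this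
        exact this
      · have : (ν.1, ν'.2.1, ν.2.2) = ν' := by
          rw [← h11, ← h12]
        simp only
        rw [this]

end Pool.Agent.Q90.GK
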