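import Pool.Agent.H180.GK.Stm

/-!
# Project GK: the system of a weakly sigma-metacompact complement of the diagonal
-/

set_option autoImplicit false

open Set Topology Cardinal Pool.Agent.Helper535

namespace Pool.Agent.Q90.GK

open Pool.Agent.H180.GK

universe u v w

theorem init : S_Init.{u} := by
  classical
  intro X _ _ _ hM
  have hopen : IsOpen {p : X × X | p.1 ≠ p.2} := isOpen_ne_fun continuous_fst continuous_snd
  obtain ⟨A, hAo, hAc, hAr, hW⟩ := hM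
    {s | ∃ A B : Set X, IsOpen A ∧ IsOpen B ∧ Disjoint (closure A) (closure B) ∧
      s = {p : {p : X × X // p.1 ≠ p.2} | p.1.1 ∈ A ∧ p.1.2 ∈ B}} (by
    rintro s ⟨A, B, hA, hB, -, rfl⟩
    exact (hA.preimage (continuous_fst.comp continuous_subtype_val)).inter
      (hB.preimage (continuous_snd.comp continuous_subtype_val))) (by
    rw [eq_univ_iff_forall]
    rintro ⟨⟨x, y⟩, hxy⟩
    obtain ⟨U, hxU, hU, V, hyV, hV, hUV⟩ := exists_open_nhds_disjoint_closure hxy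
    exact ⟨_, ⟨U, V, hU, hV, hUV, rfl⟩, hxU, hyV⟩)
  rw [WSPF_iff] at hW
  obtain ⟨B, hBA, hB⟩ := hW
  -- Urysohn functions
  have hg : ∀ v : A, ∃ g : C(X, ℝ), ∀ p : {p : X × X // p.1 ≠ p.2}, p ∈ v.1 →
      g p.1.1 = 0 ∧ g p.1.2 = 1 := by
    intro v
    obtain ⟨t, ⟨C, D, hC, hD, hCD, rfl⟩, hvt⟩ := hAr v.1 v.2
    obtain ⟨g, h0, h1, -⟩ := exists_continuous_zero_one_of_isClosed (isClosed_closure (s := C))
      (isClosed_closure (s := D)) hCD
    refine ⟨g, fun p hp => ?_⟩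
    obtain ⟨h2, h3⟩ := hvt hp
    exact ⟨h0 (subset_closure h2), h1 (subset_closure h3)⟩
  choose g hg using hg
  let τ : TopologicalSpace A :=
    TopologicalSpace.generateFrom (Set.range fun n : ℕ => {v : A | v.1 ∈ B n})
  have hτ : @SecondCountableTopology A τ :=
    @SecondCountableTopology.mk A τ ⟨_, Set.countable_range _, rfl⟩
  refine ⟨A, τ, hτ, fun v => Subtype.val '' v.1, g, ?_⟩
  refine @Sys.mk X _ A τ _ _ ?_ ?_ ?_ ?_ ?_
  · intro v
    exact hopen.isOpenMap_subtype_val _ (hAo v.1 v.2)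
  · rintro v _ ⟨p, hp, rfl⟩
    exact (hg v p hp).1
  · rintro v _ ⟨p, hp, rfl⟩
    exact (hg v p hp).2
  · intro x y hxy
    have h1 : (⟨(x, y), hxy⟩ : {p : X × X // p.1 ≠ p.2}) ∈ ⋃₀ A := by rw [hAc]; exact mem_univ _
    obtain ⟨s, hs, hps⟩ := h1
    exact ⟨⟨s, hs⟩, ⟨_, hps, rfl⟩⟩
  · intro x y hxy v
    obtain ⟨n, hn, hf⟩ := hB ⟨(x, y), hxy⟩ v.1 v.2
    refine ⟨{w : A | w.1 ∈ B n}, ?_, ?_⟩
    · have h2 : @IsOpen A τ {w : A | w.1 ∈ B n} :=
        TopologicalSpace.isOpen_generateFrom_of_mem ⟨n, rfl⟩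
      exact h2.mem_nhds hn
    · refine (hf.preimage (Subtype.val_injective (p := (· ∈ A))).injOn).subset ?_
      rintro w ⟨hw, ⟨p, hp, hpe⟩⟩
      refine ⟨hw, ?_⟩
      have : p = ⟨(x, y), hxy⟩ := Subtype.ext hpe
      rw [← this]
      exact hp

end Pool.Agent.Q90.GK
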